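import Pool.Agent.Helper38.WY.Goals2

/-!
# Project WY: a root of unity which is not a `p`-th power.
-/

set_option autoImplicit false

namespace Pool.Agent.Helper81.WY

open Finset

section

variable {p : ℕ} [hp : Fact p.Prime]

/-- powers of an element of norm `1` -/
theorem norm_pow_sub_one_le {r : ℂ_[p]} (hr : ‖r‖ = 1) (n : ℕ) : ‖r ^ n - 1‖ ≤ ‖r - 1‖ := by
  have h1 : r ^ n - 1 = (r - 1) * ∑ i ∈ range n, r ^ i := (mul_geom_sum r n).symm
  have h2 : ‖∑ i ∈ range n, r ^ i‖ ≤ 1 := by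
    apply IsUltrametricDist.norm_sum_le_of_forall_le_of_nonneg zero_le_one
    intro i _
    rw [norm_pow, hr, one_pow]
  rw [h1, norm_mul]
  calc ‖r - 1‖ * ‖∑ i ∈ range n, r ^ i‖ ≤ ‖r - 1‖ * 1 :=
        mul_le_mul_of_nonneg_left h2 (norm_nonneg _)
    _ = ‖r - 1‖ := mul_one _

theorem norm_of_pow_eq_one {x : ℂ_[p]} {n : ℕ} (h : x ^ p ^ n = 1) : ‖x‖ = 1 := by
  have h1 : ‖x‖ ^ p ^ n = 1 := by rw [← norm_pow, h, norm_one]
  exact (pow_eq_one_iff_of_nonneg (norm_nonneg _) (pow_pos hp.out.pos n).ne').1 h1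

/-- different roots of unity of `p`-power order are far away from each other -/
theorem norm_p_le {r : ℂ_[p]} (hr : r ≠ 1) {n : ℕ} (h : r ^ p ^ n = 1) : ‖(p : ℂ_[p])‖ ≤ ‖r - 1‖ := by
  classical
  have hn := norm_of_pow_eq_one h
  have hex : ∃ j, r ^ p ^ j = 1 := ⟨n, h⟩
  set j := Nat.find hex with hj
  have h1 : r ^ p ^ j = 1 := Nat.find_spec hex
  have h0 : j ≠ 0 := by
    intro h0
    rw [h0, pow_zero, pow_one] at h1
    exact hr h1
  obtain ⟨i, hi⟩ := Nat.exists_eq_succ_of_ne_zero h0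
  have h2 : r ^ p ^ i ≠ 1 := Nat.find_min hex (by omega)
  set ξ := r ^ p ^ i with hξ
  have h3 : ξ ^ p = 1 := by
    rw [hξ, ← pow_mul, ← pow_succ, ← Nat.succ_eq_add_one, ← hi, h1]
  have h4 : ‖ξ - 1‖ ≤ ‖r - 1‖ := norm_pow_sub_one_le hn _
  refine le_trans ?_ h4
  have hnξ : ‖ξ‖ = 1 := by rw [hξ, norm_pow, hn, one_pow]
  have h5 : ∑ i ∈ range p, ξ ^ i = 0 := by
    have := mul_geom_sum ξ p
    rw [h3, sub_self] at this
    exact (mul_eq_zero.1 this).resolve_left (sub_ne_zero.2 h2)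
  have h6 : (p : ℂ_[p]) = - ∑ i ∈ range p, (ξ ^ i - 1) := by
    rw [sum_sub_distrib, h5]
    simp
  rw [h6, norm_neg]
  apply IsUltrametricDist.norm_sum_le_of_forall_le_of_nonneg (norm_nonneg _)
  intro i _
  exact norm_pow_sub_one_le hnξ i

/-- the roots of unity of `p`-power order of `𝓕` are finitely many -/
theorem finite_roots (𝓕 : IntermediateField ℚ_[p] ℂ_[p]) [FiniteDimensional ℚ_[p] 𝓕] :
    {x : ℂ_[p] | x ∈ 𝓕 ∧ ∃ n, x ^ p ^ n = 1}.Finite := by
  set V : Submodule ℚ_[p] ℂ_[p] := Subalgebra.toSubmodule 𝓕.toSubalgebra with hV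
  haveI : FiniteDimensional ℚ_[p] V := ‹FiniteDimensional ℚ_[p] 𝓕›
  haveI : ProperSpace V := FiniteDimensional.proper ℚ_[p] V
  have hK : IsCompact ((fun v : V => (v : ℂ_[p])) '' Metric.closedBall 0 1) :=
    (isCompact_closedBall 0 1).image continuous_subtype_val
  set U := {x : ℂ_[p] | x ∈ 𝓕 ∧ ∃ n, x ^ p ^ n = 1} with hU
  have hp0 : 0 < ‖(p : ℂ_[p])‖ := by
    rw [norm_pos_iff]
    exact_mod_cast hp.out.ne_zero
  have hsep : ∀ x ∈ U, ∀ y ∈ U, x ≠ y → ‖(p : ℂ_[p])‖ ≤ dist x y := by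
    rintro x ⟨_, n, hn⟩ y ⟨_, m, hm⟩ hxy
    have hy := norm_of_pow_eq_one hm
    have hy0 : y ≠ 0 := norm_pos_iff.1 (by rw [hy]; exact one_pos)
    have h1 : (x / y) ^ p ^ (n + m) = 1 := by
      rw [div_pow, pow_add, pow_mul, hn, one_pow, mul_comm, pow_mul, hm, one_pow, div_one]
    have h2 : x / y ≠ 1 := fun h => hxy ((div_eq_one_iff_eq hy0).1 h)
    have h3 := norm_p_le h2 h1
    have h4 : x / y - 1 = (x - y) / y := by field_simp
    rwa [h4, norm_div, hy, div_one, ← dist_eq_norm] at h3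
  have hUK : U ⊆ (fun v : V => (v : ℂ_[p])) '' Metric.closedBall 0 1 := by
    rintro x ⟨hx, n, hn⟩
    refine ⟨⟨x, hx⟩, ?_, rfl⟩
    rw [mem_closedBall_zero_iff]
    exact (norm_of_pow_eq_one hn).le
  have hcl : IsClosed U := Metric.isClosed_of_pairwise_le_dist hp0 fun x hx y hy hxy => hsep x hx y hy hxy
  have hcU : IsCompact U := hK.of_isClosed_subset hcl hUK
  refine hcU.finite ⟨DiscreteTopology.of_forall_le_dist (α := U) hp0 fun x y hxy => ?_⟩
  exact hsep x x.2 y y.2 fun h => hxy (Subtype.ext h)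

end

theorem y_zet : Pool.Agent.Helper38.WY.Y_ZET := by
  classical
  intro p _ 𝓕 _ ε hε
  have hp : p.Prime := Fact.out
  set A : Set ℕ := {a | ∃ ζ : 𝓕, IsPrimitiveRoot ζ (p ^ (a + 1))} with hA
  have h0 : 0 ∈ A := ⟨ε, by simpa using hε⟩
  have hAf : A.Finite := by
    have hch : ∀ a : A, ∃ ζ : 𝓕, IsPrimitiveRoot ζ (p ^ (a.1 + 1)) := fun a => a.2
    choose f hf using hch
    have hfin : Finite {x : ℂ_[p] // x ∈ 𝓕 ∧ ∃ n, x ^ p ^ n = 1} := (finite_roots 𝓕).to_subtype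
    let g : A → {x : ℂ_[p] // x ∈ 𝓕 ∧ ∃ n, x ^ p ^ n = 1} := fun a =>
      ⟨f a, (f a).2, a.1 + 1, by
        have := (hf a).pow_eq_one
        exact_mod_cast congrArg (fun z : 𝓕 => (z : ℂ_[p])) this⟩
    have hg : Function.Injective g := by
      intro a b hab
      have h1 : f a = f b := Subtype.ext (congrArg (fun z => (z.1 : ℂ_[p])) hab)
      have h2 := hf a
      rw [h1] at h2
      have h3 := h2.unique (hf b)
      have h4 := Nat.pow_right_injective hp.two_le h3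
      exact Subtype.ext (by omega)
    have : Finite A := Finite.of_injective g hg
    exact Set.toFinite A
  obtain ⟨a, haA, hmax⟩ := hAf.exists_maximal ⟨0, h0⟩
  obtain ⟨ζ, hζ⟩ := haA
  have h1 : ζ ^ p ^ (a + 1) = 1 := hζ.pow_eq_one
  have h2 : ζ ^ p ^ a ≠ 1 := by
    intro h
    have := hζ.dvd_of_pow_eq_one _ h
    have h3 := Nat.le_of_dvd (pow_pos hp.pos a) this
    have h4 := Nat.pow_lt_pow_right hp.one_lt (Nat.lt_succ_self a)
    simp only [Nat.succ_eq_add_one] at h4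
    omega
  have h3 : (ζ ^ p ^ a) ^ p = 1 := by rw [← pow_mul, ← pow_succ, h1]
  obtain ⟨u, hu, hu2⟩ := hε.eq_pow_of_pow_eq_one h3
  refine ⟨ζ, a, u, h1, hu2.symm, ?_, ?_⟩
  · rw [Nat.coprime_comm, hp.coprime_iff_not_dvd]
    intro hd
    have : u = 0 := Nat.eq_zero_of_dvd_of_lt hd hu
    rw [this, pow_zero] at hu2
    exact h2 hu2.symm
  · rintro k ⟨t, ht0, ht⟩
    by_contra hk
    have ho : IsPrimitiveRoot (ζ ^ p ^ a) p := by
      have := IsPrimitiveRoot.orderOf (ζ ^ p ^ a)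
      rwa [orderOf_eq_prime h3 h2] at this
    have h5 : t ^ p ^ (a + 1) ≠ 1 := by
      intro h
      rw [pow_succ', pow_mul, ht] at h
      have h6 : (ζ ^ p ^ a) ^ k = 1 := by
        rw [← h, ← zpow_natCast (ζ ^ k), ← zpow_natCast ζ, ← zpow_mul, ← zpow_mul, mul_comm]
      exact hk ((ho.zpow_eq_one_iff_dvd k).1 h6)
    have h8 : t ^ p ^ (a + 1 + 1) = 1 := by
      rw [pow_succ', pow_mul, ht, ← zpow_natCast, ← zpow_mul, mul_comm, zpow_mul, zpow_natCast, h1, one_zpow]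
    have h9 : orderOf t = p ^ (a + 1 + 1) := orderOf_eq_prime_pow h5 h8
    have h10 : a + 1 ∈ A := ⟨t, by rw [← h9]; exact IsPrimitiveRoot.orderOf t⟩
    have := hmax h10 (Nat.le_succ a)
    omega

end Pool.Agent.Helper81.WY
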